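import Pool.Agent.H296.IL.Main

/-!
# MP_50d9bc_an: inner local spectral radius preservers of sums and differences, no continuity

For all complex Banach spaces `X`, `Y`, all nonzero vectors `x0`, `y0` and every bijection
`φ` from the bounded operators on `X` onto the bounded operators on `Y` with `φ 0 = 0` which
preserves the inner local spectral radius of sums and of differences, there are a unimodular
scalar `α` and a linear or conjugate-linear homeomorphic bijection `A` with `A x0 = y0` and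
`φ T = α A T A⁻¹` for all `T`.  No continuity, additivity or homogeneity is assumed.
-/

open scoped ENNReal NNReal

namespace Pool.Agent.Results.MP_50d9bc_an.AllBanachSpaces

open Pool.Agent.H296.IL

section aux

variable {X : Type*} [NormedAddCommGroup X] [NormedSpace ℂ X]
variable {Y : Type*} [NormedAddCommGroup Y] [NormedSpace ℂ Y]

lemma pr_smul {x0 : X} {y0 : Y} {φ : (X →L[ℂ] X) ≃ (Y →L[ℂ] Y)} (h : Pr x0 y0 φ) {α : ℂ}
    (hα : ‖α‖ = 1) : ∃ φ1 : (X →L[ℂ] X) ≃ (Y →L[ℂ] Y), Pr x0 y0 φ1 ∧ ∀ T, φ T = α • φ1 T := by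
  have hα0 : α ≠ 0 := by rintro rfl; simp at hα
  have hα1 : ‖α⁻¹‖ = 1 := by rw [norm_inv, hα, inv_one]
  let φ1 : (X →L[ℂ] X) ≃ (Y →L[ℂ] Y) :=
    { toFun := fun T => α⁻¹ • φ T
      invFun := fun S => φ.symm (α • S)
      left_inv := fun T => by
        simp only
        rw [smul_smul, mul_inv_cancel₀ hα0, one_smul, Equiv.symm_apply_apply]
      right_inv := fun S => by
        simp only
        rw [Equiv.apply_symm_apply, smul_smul, inv_mul_cancel₀ hα0, one_smul] }
  have hφ1 : ∀ T, φ1 T = α⁻¹ • φ T := fun T => rfl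
  refine ⟨φ1, ⟨h.hx0, h.hy0, ?_, ?_, ?_⟩, ?_⟩
  · rw [hφ1, h.zero, smul_zero]
  · intro T S
    rw [hφ1, hφ1, ← smul_add, iota_smul_unimod hα1, h.add]
  · intro T S
    rw [hφ1, hφ1, ← smul_sub, iota_smul_unimod hα1, h.sub]
  · intro T
    rw [hφ1, smul_smul, mul_inv_cancel₀ hα0, one_smul]

lemma norm_class {x0 : X} {y0 : Y} {φ : (X →L[ℂ] X) ≃ (Y →L[ℂ] Y)} (h : Pr x0 y0 φ) :
    ∃ (α : ℂ) (φ1 : (X →L[ℂ] X) ≃ (Y →L[ℂ] Y)), ‖α‖ = 1 ∧ (∀ T, φ T = α • φ1 T) ∧
      (Nm (RingEquiv.refl ℂ) x0 y0 φ1 ∨ Nm (starRingAut (R := ℂ)) x0 y0 φ1) := by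
  choose k hk using h.scalar
  have inj1 : ∀ {a b : ℂ}, a • (1 : Y →L[ℂ] Y) = b • (1 : Y →L[ℂ] Y) → a = b := by
    intro a b hab
    have := congrArg (fun A : Y →L[ℂ] Y => A y0) hab
    simp only [smul_apply, one_apply_eq_self] at this
    exact smul_left_injective ℂ h.hy0 this
  have inj2 : ∀ {a b : ℂ}, a • (1 : X →L[ℂ] X) = b • (1 : X →L[ℂ] X) → a = b := by
    intro a b hab
    have := congrArg (fun A : X →L[ℂ] X => A x0) hab
    simp only [smul_apply, one_apply_eq_self] at this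
    exact smul_left_injective ℂ h.hx0 this
  have hiso : ∀ a b, ‖k a - k b‖ = ‖a - b‖ := by
    intro a b
    have h1 := h.sub (a • (1 : X →L[ℂ] X)) (b • (1 : X →L[ℂ] X))
    rw [hk, hk, ← sub_smul, ← sub_smul, iota_smul_one h.hy0, iota_smul_one h.hx0] at h1
    exact (ENNReal.ofReal_eq_ofReal_iff (norm_nonneg _) (norm_nonneg _)).1 h1
  have hsurj : Function.Surjective k := by
    intro c'
    obtain ⟨c, hc⟩ := h.symm.scalar c'
    refine ⟨c, inj1 ?_⟩
    rw [← hk, ← hc, Equiv.apply_symm_apply]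
  have h0 : k 0 = 0 := by
    apply inj1
    rw [← hk, zero_smul, zero_smul, h.zero]
  obtain ⟨α, hα, hcase⟩ := isom_class k hiso hsurj h0
  have hα0 : α ≠ 0 := by rintro rfl; simp at hα
  obtain ⟨φ1, hP, hφ1⟩ := pr_smul h hα
  refine ⟨α, φ1, hα, hφ1, ?_⟩
  have hcan : ∀ {A B : Y →L[ℂ] Y}, α • A = α • B → A = B := fun {A B} hAB =>
    smul_right_injective (Y →L[ℂ] Y) hα0 hAB
  rcases hcase with hc | hc
  · left
    refine { toPr := hP, sn := fun z => rfl, sr := fun r => rfl, sc := fun c => hcan ?_ }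
    rw [← hφ1, hk, hc, smul_smul]; rfl
  · right
    refine { toPr := hP, sn := fun z => ?_, sr := fun r => ?_, sc := fun c => hcan ?_ }
    · rw [starRingAut_apply, norm_star]
    · rw [starRingAut_apply]; simp
    · rw [← hφ1, hk, hc, smul_smul]; rfl

end aux

universe u v

/-- **Theorem.** Let `X`, `Y` be complex Banach spaces, `x0 ≠ 0`, `y0 ≠ 0`, and let `φ` be a
bijection from the bounded operators on `X` onto those on `Y` with `φ 0 = 0` such that the
inner local spectral radius of `φ T ± φ S` at `y0` equals that of `T ± S` at `x0` for all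
`T, S`. Then `φ T = α A T A⁻¹` with `|α| = 1` and a linear or conjugate-linear
(bicontinuous) bijection `A` with `A x0 = y0`. -/
theorem result (X : Type u) (Y : Type v)
    [NormedAddCommGroup X] [NormedSpace ℂ X] [CompleteSpace X]
    [NormedAddCommGroup Y] [NormedSpace ℂ Y] [CompleteSpace Y]
    (x0 : X) (y0 : Y) (hx0 : x0 ≠ 0) (hy0 : y0 ≠ 0)
    (φ : (X →L[ℂ] X) → (Y →L[ℂ] Y)) (hbij : Function.Bijective φ) (hzero : φ 0 = 0)
    (h : ∀ T S : X →L[ℂ] X, iota (φ T + φ S) y0 = iota (T + S) x0 ∧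
      iota (φ T - φ S) y0 = iota (T - S) x0) :
    ∃ α : ℂ, ‖α‖ = 1 ∧
      ((∃ A : X ≃L[ℂ] Y, A x0 = y0 ∧ ∀ (T : X →L[ℂ] X) (y : Y),
          φ T y = α • A (T (A.symm y))) ∨
       (∃ A : X ≃SL[starRingEnd ℂ] Y, A x0 = y0 ∧ ∀ (T : X →L[ℂ] X) (y : Y),
          φ T y = α • A (T (A.symm y)))) := by
  have hP : Pr x0 y0 (Equiv.ofBijective φ hbij) :=
    { hx0 := hx0, hy0 := hy0, zero := hzero, add := fun T S => (h T S).1,
      sub := fun T S => (h T S).2 }
  obtain ⟨α, φ1, hα, hφ1, hN⟩ := norm_class hP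
  refine ⟨α, hα, ?_⟩
  have hφ : ∀ T y, φ T y = α • (φ1 T y) := by
    intro T y
    have := congrArg (fun A : Y →L[ℂ] Y => A y) (hφ1 T)
    exact this
  rcases hN with N | N
  · left
    let A : X ≃L[ℂ] Y :=
      { toFun := N.rho
        map_add' := N.rho_add
        map_smul' := fun c x => by rw [N.rho_smul]; rfl
        invFun := N.symm.rho
        left_inv := N.symm_rho_rho
        right_inv := N.rho_symm_rho
        continuous_toFun := N.rho_cont
        continuous_invFun := N.symm.rho_cont }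
    refine ⟨A, N.rho_x0, fun T y => ?_⟩
    rw [hφ]
    congr 1
    change φ1 T y = N.rho (T (N.symm.rho y))
    rw [← N.main, N.rho_symm_rho]
  · right
    let A : X ≃SL[starRingEnd ℂ] Y :=
      { toFun := N.rho
        map_add' := N.rho_add
        map_smul' := fun c x => by rw [N.rho_smul]; rfl
        invFun := N.symm.rho
        left_inv := N.symm_rho_rho
        right_inv := N.rho_symm_rho
        continuous_toFun := N.rho_cont
        continuous_invFun := N.symm.rho_cont }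
    refine ⟨A, N.rho_x0, fun T y => ?_⟩
    rw [hφ]
    congr 1
    change φ1 T y = N.rho (T (N.symm.rho y))
    rw [← N.main, N.rho_symm_rho]

end Pool.Agent.Results.MP_50d9bc_an.AllBanachSpaces
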